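import Pool.Agent.L0h48.TV.SwB
import Pool.Agent.L0h5.TV.Stm

/-!
# Project TV, module V1: sums over primes twisted by characters of small modulus
-/

set_option autoImplicit false

namespace Pool.Agent.L0h48.TV

open Finset Pool.Agent.W262.RK Pool.Agent.L0h5.TV
open Pool.Agent.L0h5.AG (ps)

lemma term (c z : ℕ) (o τ : Bool) (hz : 2 ≤ z) (hcz : 2 * c + 2 ≤ z) (r p : ℕ) (hp : p.Prime)
    (hzp : z < p) : |x4 o p / ((p : ℝ) - c) * ps r τ p - fx r (xor o τ) p / p| ≤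
      2 * c * (1 / (p : ℝ) ^ 2) := by
  have hp2 : p % 2 = 1 := by
    rcases hp.eq_two_or_odd with h | h
    · omega
    · exact h
  have h1 : x4 o p / ((p : ℝ) - c) * ps r τ p = fx r (xor o τ) p / ((p : ℝ) - c) := by
    unfold ps fx
    rw [← x4_xor o τ p hp2]
    ring
  have hp1 : (2 * c + 3 : ℝ) ≤ p := by exact_mod_cast (by omega : 2 * c + 3 ≤ p)
  have hc : (0:ℝ) ≤ c := Nat.cast_nonneg c
  have hp0 : (0:ℝ) < p := by linarith
  have hpc : (0:ℝ) < (p : ℝ) - c := by linarith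
  have h2 : fx r (xor o τ) p / ((p : ℝ) - c) - fx r (xor o τ) p / p =
      fx r (xor o τ) p * (c / (p * ((p : ℝ) - c))) := by
    field_simp
    ring
  rw [h1, h2, abs_mul, abs_of_nonneg (by positivity : (0 : ℝ) ≤ c / (p * ((p : ℝ) - c)))]
  have h3 : (c : ℝ) / (p * ((p : ℝ) - c)) ≤ 2 * c * (1 / (p : ℝ) ^ 2) := by
    rw [mul_one_div, div_le_div_iff₀ (by positivity) (by positivity)]
    have h4 : (p : ℝ) ^ 2 ≤ 2 * (p * ((p : ℝ) - c)) := by nlinarith
    nlinarith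
  have h5 := fx_abs r (xor o τ) p
  have h6 : (0 : ℝ) ≤ c / (p * ((p : ℝ) - c)) := by positivity
  calc |fx r (xor o τ) p| * (c / (p * ((p : ℝ) - c))) ≤ 1 * (c / (p * ((p : ℝ) - c))) :=
        mul_le_mul_of_nonneg_right h5 h6
    _ ≤ _ := by rw [one_mul]; exact h3

theorem sw : S3_SW := by
  intro c z o hz hcz A η hη
  obtain ⟨C, hC0, hC⟩ := main A η hη z hz
  obtain ⟨K, hK, hsq⟩ := Pool.Agent.W655.RK.sum_inv_sq
  refine ⟨C + 2 * c * K, fun y hy r hr hrp hrA τ hne => ?_⟩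
  have hr0 : 0 < r := Nat.pos_of_ne_zero hr.ne_zero
  have hr2 : r.Coprime 2 := by
    rw [Nat.coprime_comm, Nat.Prime.coprime_iff_not_dvd Nat.prime_two]
    intro h
    have := hrp 2 Nat.prime_two h
    omega
  have hne' : ¬ (r = 1 ∧ xor o τ = false) := by
    rintro ⟨h1, h2⟩
    apply hne
    refine ⟨h1, ?_⟩
    revert h2
    cases o <;> cases τ <;> simp
  have h1 := hC y hy r (xor o τ) hr0 hr hr2 hne' hrA
  have h2 : |∑ p ∈ PS z y, x4 o p / ((p : ℝ) - c) * ps r τ p -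
      ∑ p ∈ PS z y, fx r (xor o τ) p / p| ≤ 2 * c * K := by
    rw [← sum_sub_distrib]
    refine (abs_sum_le_sum_abs _ _).trans ?_
    refine (sum_le_sum fun p hp => term c z o τ hz hcz r p
      (Pool.Agent.W655.RK.PS_prime hp) (Pool.Agent.W655.RK.PS_lt hp)).trans ?_
    rw [← mul_sum]
    exact mul_le_mul_of_nonneg_left (hsq _) (by positivity)
  have h3 : ∑ p ∈ PS z y, x4 o p / ((p : ℝ) - c) * ps r τ p =
      (∑ p ∈ PS z y, x4 o p / ((p : ℝ) - c) * ps r τ p -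
      ∑ p ∈ PS z y, fx r (xor o τ) p / p) + ∑ p ∈ PS z y, fx r (xor o τ) p / p := by ring
  have h4 : |∑ p ∈ PS z y, x4 o p / ((p : ℝ) - c) * ps r τ p| ≤ η * Pool.Agent.L0h5.TT.LL y + (C + 2 * c * K) := by
    rw [h3]
    refine (abs_add_le _ _).trans ?_
    unfold Pool.Agent.L0h5.TT.LL
    linarith
  exact h4

end Pool.Agent.L0h48.TV
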