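import Pool.Agent.L0h64.RZ.EqwA
import Pool.Agent.W262.RK.Defs

/-!
# Project TV, module V1: the character sums over the residue classes
-/

set_option autoImplicit false

namespace Pool.Agent.L0h48.TV

open Finset Pool.Agent.L0h64.RZ Pool.Agent.W262.RK

/-- the character -/
noncomputable def fx (r : ℕ) (κ : Bool) (n : ℕ) : ℝ := Jr n r * x4 κ n

lemma x4_mod (κ : Bool) (n q : ℕ) (h : 4 ∣ q) : x4 κ (n % q) = x4 κ n := by
  unfold x4
  have h1 : ((n % q : ℕ) : ZMod 4) = (n : ZMod 4) :=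
    (ZMod.natCast_eq_natCast_iff _ _ _).2 ((Nat.mod_modEq n q).of_dvd h)
  rw [h1]

lemma fx_mod (r : ℕ) (κ : Bool) (n : ℕ) : fx r κ n = fx r κ (n % (4 * r)) := by
  unfold fx Jr
  rw [js_mod r n (4 * r) (Dvd.intro_left _ rfl), x4_mod κ n (4 * r) (Dvd.intro _ rfl)]

lemma Jr_abs (a : ℤ) (n : ℕ) : |Jr a n| ≤ 1 := by
  unfold Jr
  rcases jacobiSym.trichotomy a n with h | h | h <;> rw [h] <;> norm_num

lemma x4_abs (κ : Bool) (n : ℕ) : |x4 κ n| ≤ 1 := by
  unfold x4
  split_ifs
  · generalize (n : ZMod 4) = a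
    have : ∀ a : ZMod 4, ZMod.χ₄ a = 0 ∨ ZMod.χ₄ a = 1 ∨ ZMod.χ₄ a = -1 := by decide
    rcases this a with h | h | h <;> rw [h] <;> norm_num
  · norm_num

lemma fx_abs (r : ℕ) (κ : Bool) (n : ℕ) : |fx r κ n| ≤ 1 := by
  unfold fx
  rw [abs_mul]
  exact mul_le_one₀ (Jr_abs _ _) (abs_nonneg _) (x4_abs _ _)

lemma x4_mul (κ : Bool) (a c : ℕ) : x4 κ (a * c) = x4 κ a * x4 κ c := by
  unfold x4
  split_ifs
  · rw [Nat.cast_mul, map_mul, Int.cast_mul]
  · rw [one_mul]

lemma fx_mul (r : ℕ) (κ : Bool) (a c : ℕ) : fx r κ (a * c) = fx r κ a * fx r κ c := by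
  unfold fx Jr
  rw [x4_mul, Nat.cast_mul, jacobiSym.mul_left, Int.cast_mul]
  ring

/-- there is a class with symbol `-1` -/
lemma exists_neg4 (d : ℕ) (hd : 1 < d) (hsq : Squarefree d) (h2 : d.Coprime 2) :
    ∃ a : ℕ, a % 4 = 1 ∧ jacobiSym (a : ℤ) d = -1 := by
  obtain ⟨p, hp, hpd⟩ := Nat.exists_prime_and_dvd (by omega : d ≠ 1)
  obtain ⟨e, rfl⟩ := hpd
  have : Fact p.Prime := ⟨hp⟩
  have hpe : p.Coprime e := Nat.coprime_of_squarefree_mul hsq
  have hp6 : p.Coprime 2 := Nat.Coprime.coprime_mul_right h2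
  have hp24 : p.Coprime 4 := by
    have : p.Coprime (2 * 2) := hp6.mul_right hp6
    exact this
  have hp2 : p ≠ 2 := by
    rintro rfl
    norm_num at hp6
  have hne : ringChar (ZMod p) ≠ 2 := by
    rw [ZMod.ringChar_zmod_n]
    exact hp2
  obtain ⟨r, hr⟩ := FiniteField.exists_nonsquare hne
  have hc : p.Coprime (4 * e) := hp24.mul_right hpe
  obtain ⟨a, ha1, ha2⟩ := Nat.chineseRemainder hc r.val 1
  have he0 : e ≠ 0 := by
    rintro rfl
    simp at hd
  have : NeZero e := ⟨he0⟩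
  have : NeZero p := ⟨hp.ne_zero⟩
  refine ⟨a, ?_, ?_⟩
  · have : a ≡ 1 [MOD 4] := ha2.of_dvd (Dvd.intro _ rfl)
    exact this
  · rw [jacobiSym.mul_right]
    have h1 : jacobiSym (a : ℤ) e = 1 := by
      have h2 : a ≡ 1 [MOD e] := ha2.of_dvd (Dvd.intro_left _ rfl)
      rw [jacobiSym.mod_left, show (a : ℤ) % (e : ℤ) = (1 : ℤ) % e from by
        have := (Int.natCast_modEq_iff.2 h2)
        exact_mod_cast this, ← jacobiSym.mod_left, jacobiSym.one_left]
    have h3 : jacobiSym (a : ℤ) p = -1 := by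
      rw [← jacobiSym.legendreSym.to_jacobiSym, legendreSym.eq_neg_one_iff]
      have h4 : ((a : ℤ) : ZMod p) = r := by
        have h5 : (a : ZMod p) = ((r.val : ℕ) : ZMod p) := (ZMod.natCast_eq_natCast_iff _ _ _).2 ha1
        rw [ZMod.natCast_zmod_val] at h5
        exact_mod_cast h5
      rw [h4]
      exact hr
    rw [h1, h3]
    norm_num

/-- a class where the character is `-1` -/
lemma exists_fx_neg (r : ℕ) (κ : Bool) (hr0 : 0 < r) (hsq : Squarefree r) (h2 : r.Coprime 2)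
    (h : ¬ (r = 1 ∧ κ = false)) : ∃ a : ℕ, a.Coprime (4 * r) ∧ fx r κ a = -1 := by
  rcases Nat.lt_or_ge 1 r with h1 | h1
  · obtain ⟨a, ha, hJ⟩ := exists_neg4 r h1 hsq h2
    refine ⟨a, ?_, ?_⟩
    · apply Nat.Coprime.mul_right
      · have : Nat.gcd a 4 = Nat.gcd (a % 4) 4 := by
          rw [Nat.gcd_comm, Nat.gcd_rec]
        unfold Nat.Coprime
        rw [this, ha]
        norm_num
      · have : NeZero r := ⟨by omega⟩
        by_contra hc
        have : jacobiSym (a : ℤ) r = 0 := by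
          rw [jacobiSym.eq_zero_iff]
          refine ⟨by omega, ?_⟩
          rw [Int.gcd_natCast_natCast]
          exact hc
        rw [this] at hJ
        norm_num at hJ
    · unfold fx Jr
      have h3 : x4 κ a = 1 := by
        have h4 := x4_mod κ a 4 dvd_rfl
        rw [ha] at h4
        rw [← h4]
        unfold x4
        split_ifs
        · have : ZMod.χ₄ ((1 : ℕ) : ZMod 4) = 1 := by decide
          rw [this]
          norm_num
        · rfl
      rw [h3, hJ]
      norm_num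
  · have h3 : r = 1 := by omega
    have h4 : κ = true := by
      rcases Bool.eq_false_or_eq_true κ with hh | hh
      · exact hh
      · exact absurd ⟨h3, hh⟩ h
    subst h3 h4
    refine ⟨3, by norm_num, ?_⟩
    unfold fx Jr x4
    rw [jacobiSym.one_right, if_pos rfl]
    have : ZMod.χ₄ ((3 : ℕ) : ZMod 4) = -1 := by decide
    rw [this]
    norm_num

/-- the sum over the classes is zero -/
lemma fx_sum (r : ℕ) (κ : Bool) (hr0 : 0 < r) (hsq : Squarefree r) (h2 : r.Coprime 2)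
    (h : ¬ (r = 1 ∧ κ = false)) :
    ∑ c ∈ (range (4 * r)).filter (fun c => c.Coprime (4 * r)), fx r κ c = 0 := by
  obtain ⟨a, hac, hJ⟩ := exists_fx_neg r κ hr0 hsq h2 h
  set S := ∑ c ∈ (range (4 * r)).filter (fun c => c.Coprime (4 * r)), fx r κ c with hS
  have hq : 0 < 4 * r := by omega
  have key : S = -S := by
    have h1 : S = ∑ c ∈ (range (4 * r)).filter (fun c => c.Coprime (4 * r)),
        fx r κ ((a * c) % (4 * r)) := by
      rw [hS]
      symm
      have hmaps : ∀ c ∈ (range (4 * r)).filter (fun c => c.Coprime (4 * r)),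
          (a * c) % (4 * r) ∈ (range (4 * r)).filter (fun c => c.Coprime (4 * r)) := by
        intro c hc
        rw [mem_filter, mem_range] at hc ⊢
        refine ⟨Nat.mod_lt _ hq, ?_⟩
        have h2 : (a * c).Coprime (4 * r) := hac.mul_left hc.2
        unfold Nat.Coprime at h2 ⊢
        rw [← Nat.gcd_rec]
        exact (Nat.gcd_comm _ _).trans h2
      have hinj : Set.InjOn (fun c => (a * c) % (4 * r))
          (((range (4 * r)).filter (fun c => c.Coprime (4 * r)) : Finset ℕ) : Set ℕ) := by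
        intro c hc c' hc' h
        rw [mem_coe, mem_filter, mem_range] at hc hc'
        have h2 : c ≡ c' [MOD 4 * r] := Nat.ModEq.cancel_left_of_coprime
          (by rw [Nat.gcd_comm]; exact hac) h
        unfold Nat.ModEq at h2
        rw [Nat.mod_eq_of_lt hc.1, Nat.mod_eq_of_lt hc'.1] at h2
        exact h2
      refine sum_nbij (fun c => (a * c) % (4 * r)) hmaps hinj ?_ (fun c _ => rfl)
      exact surjOn_of_injOn_of_card_le _ (fun c hc => hmaps c hc) hinj le_rfl
    refine h1.trans ?_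
    rw [hS, ← sum_neg_distrib]
    apply sum_congr rfl
    intro c _
    rw [← fx_mod, fx_mul, hJ]
    ring
  linarith

/-- the product of two characters modulo 4 -/
lemma x4_xor (o τ : Bool) (p : ℕ) (hp : p % 2 = 1) : x4 o p * x4 τ p = x4 (xor o τ) p := by
  have h1 : p % 4 = 1 ∨ p % 4 = 3 := by omega
  have h2 : ((ZMod.χ₄ (p : ZMod 4) : ℤ) : ℝ) * ((ZMod.χ₄ (p : ZMod 4) : ℤ) : ℝ) = 1 := by
    rw [← Int.cast_mul]
    have : ZMod.χ₄ (p : ZMod 4) * ZMod.χ₄ (p : ZMod 4) = 1 := by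
      rcases h1 with h | h
      · rw [ZMod.χ₄_nat_one_mod_four h]; norm_num
      · rw [ZMod.χ₄_nat_three_mod_four h]; norm_num
    rw [this]
    norm_num
  unfold x4
  generalize ((ZMod.χ₄ (p : ZMod 4) : ℤ) : ℝ) = X at h2 ⊢
  cases o <;> cases τ <;> simp [h2]

end Pool.Agent.L0h48.TV
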