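import Pool.Agent.L0h48.TV.SwA
import Pool.Agent.H373R2.T7.LamMaj
import Pool.Agent.W655.RK.Full

/-!
# Project TV, module V1: Siegel-Walfisz and partial summation
-/

set_option autoImplicit false

namespace Pool.Agent.L0h48.TV

open Finset Filter Pool.Agent.L0h64.RZ Pool.Agent.W262.RK

lemma lq_close (f : ℕ → ℝ) (hf1 : ∀ m, |f m| ≤ 1) (n : ℕ) (hn : 1 ≤ n) :
    |∑ m ∈ Icc 1 n, ArithmeticFunction.vonMangoldt m * f m - th f n| ≤
      2 * √(n : ℝ) * Real.log n := by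
  classical
  have h1 := Chebyshev.psi_sub_theta_le (x := (n : ℝ)) (by exact_mod_cast hn)
  rw [Chebyshev.psi_sub_theta_eq_sum_not_prime, Nat.floor_natCast, sum_filter] at h1
  refine le_trans ?_ h1
  unfold th
  rw [← sum_sub_distrib]
  refine (abs_sum_le_sum_abs _ _).trans ?_
  have h2 : Icc 1 n = Ioc 0 n := by
    ext k
    rw [mem_Icc, mem_Ioc]
    omega
  rw [h2]
  apply sum_le_sum
  intro k _
  unfold lq
  have h0 : 0 ≤ ArithmeticFunction.vonMangoldt k := ArithmeticFunction.vonMangoldt_nonneg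
  by_cases hp : k.Prime
  · simp [hp, ArithmeticFunction.vonMangoldt_apply_prime hp]
  · simp only [hp, if_false, zero_mul, sub_zero, not_false_eq_true, if_true]
    rw [abs_mul, abs_of_nonneg h0]
    have := hf1 k
    nlinarith [abs_nonneg (f k)]

lemma ev_small (ε : ℝ) (hε : 0 < ε) (B : ℝ) : ∃ N0 : ℕ, 1 ≤ N0 ∧ ∀ n : ℕ, N0 ≤ n →
    B ≤ Real.log n ∧ 2 * √(n : ℝ) * Real.log n ≤ ε * n := by
  have h1 : ∀ᶠ n : ℕ in atTop, B ≤ Real.log n :=
    (Real.tendsto_log_atTop.comp tendsto_natCast_atTop_atTop).eventually_ge_atTop B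
  have h2 : ∀ᶠ n : ℕ in atTop, ‖Real.log n‖ ≤ (ε / 2) * ‖(n : ℝ) ^ (1 / 2 : ℝ)‖ :=
    tendsto_natCast_atTop_atTop.eventually
      ((isLittleO_log_rpow_atTop (by norm_num : (0 : ℝ) < 1 / 2)).def (by positivity))
  obtain ⟨N, hN⟩ := eventually_atTop.1 (h1.and h2)
  refine ⟨max N 1, le_max_right _ _, fun n hn => ?_⟩
  obtain ⟨a1, a2⟩ := hN n (le_trans (le_max_left _ _) hn)
  refine ⟨a1, ?_⟩
  have h0 : (0 : ℝ) ≤ n := Nat.cast_nonneg n
  rw [← Real.sqrt_eq_rpow, Real.norm_of_nonneg (Real.log_natCast_nonneg _),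
    Real.norm_of_nonneg (Real.sqrt_nonneg _)] at a2
  have h3 : √(n : ℝ) * √(n : ℝ) = n := Real.mul_self_sqrt h0
  have h4 := mul_le_mul_of_nonneg_left a2 (by positivity : 0 ≤ 2 * √(n : ℝ))
  refine h4.trans (le_of_eq ?_)
  calc 2 * √(n : ℝ) * (ε / 2 * √(n : ℝ)) = ε * (√(n : ℝ) * √(n : ℝ)) := by ring
    _ = ε * n := by rw [h3]

/-- sums of `log p` over the primes with characters -/
lemma theta (A : ℕ) (ε : ℝ) (hε : 0 < ε) : ∃ N0 : ℕ, ∀ n : ℕ, N0 ≤ n →
    ∀ (r : ℕ) (κ : Bool), 0 < r → Squarefree r → r.Coprime 2 → ¬ (r = 1 ∧ κ = false) →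
      (r : ℝ) ≤ Real.log n ^ A → |th (fx r κ) n| ≤ ε * n := by
  obtain ⟨N1, h1⟩ := Pool.Agent.H373R2.T7.lam_ap (A + 1) (A + 2)
  obtain ⟨N2, h20, h2⟩ := ev_small (ε / 2) (by positivity) (4 + 2 / ε)
  refine ⟨max N1 N2, fun n hn r κ hr0 hsq hr2 hne hrA => ?_⟩
  have hn1 := le_trans (le_max_left _ _) hn
  have hn2 := le_trans (le_max_right _ _) hn
  obtain ⟨b1, b2⟩ := h2 n hn2
  have hε2 : 0 < 2 / ε := by positivity
  have hL : 4 ≤ Real.log n := by linarith
  have hL0 : 0 < Real.log n := by linarith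
  have hn0 : (0 : ℝ) ≤ n := Nat.cast_nonneg n
  have hq : ((4 * r : ℕ) : ℝ) ≤ Real.log n ^ (A + 1) := by
    push_cast
    rw [pow_succ]
    have : (0 : ℝ) ≤ Real.log n ^ A := by positivity
    nlinarith
  have c1 := sum_equi (fun m => ArithmeticFunction.vonMangoldt m) (fx r κ) (4 * r) n (by omega)
    (fx_mod r κ) (fx_abs r κ) (n / Real.log n ^ (A + 2)) (n / (Nat.totient (4 * r) : ℝ))
    (fun c => h1 n hn1 (4 * r) (by omega) hq c n le_rfl)
  have c2 := lq_close (fx r κ) (fx_abs r κ) n (le_trans h20 hn2)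
  have c3 : ((4 * r : ℕ) : ℝ) * (n / Real.log n ^ (A + 2)) ≤ ε / 2 * n := by
    have d1 : ((4 * r : ℕ) : ℝ) * (n / Real.log n ^ (A + 2)) ≤
        Real.log n ^ (A + 1) * (n / Real.log n ^ (A + 2)) :=
      mul_le_mul_of_nonneg_right hq (by positivity)
    refine d1.trans ?_
    have d2 : Real.log n ^ (A + 1) * (n / Real.log n ^ (A + 2)) = n / Real.log n := by
      rw [show A + 2 = (A + 1) + 1 by ring, pow_succ (Real.log n) (A + 1)]
      field_simp
    rw [d2, div_le_iff₀ hL0]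
    have d3 : 2 / ε ≤ Real.log n := by linarith
    rw [div_le_iff₀ hε] at d3
    nlinarith
  rw [fx_sum r κ hr0 hsq hr2 hne, mul_zero, sub_zero] at c1
  have c4 : th (fx r κ) n = ∑ m ∈ Icc 1 n, ArithmeticFunction.vonMangoldt m * fx r κ m -
      (∑ m ∈ Icc 1 n, ArithmeticFunction.vonMangoldt m * fx r κ m - th (fx r κ) n) := by ring
  rw [c4]
  refine (abs_sub _ _).trans ?_
  linarith

/-- the range -/
lemma ev_range (θ : ℝ) (h0 : 0 < θ) (hθ1 : θ < 1) (A A' N : ℕ) (hA : (A : ℝ) + 1 ≤ θ * A') :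
    ∃ Y0 : ℕ, 3 ≤ Y0 ∧ ∀ y : ℕ, Y0 ≤ y → ∃ y1 : ℕ, max 2 N ≤ y1 ∧ y1 < y ∧ 1 ≤ Real.log y1 ∧
      Real.log (Real.log y1) ≤ θ * Real.log (Real.log y) ∧
      Real.log y ^ A ≤ Real.log y1 ^ A' := by
  have t1 : Tendsto (fun y : ℕ => Real.log y) atTop atTop :=
    Real.tendsto_log_atTop.comp tendsto_natCast_atTop_atTop
  have h1 : ∀ᶠ y : ℕ in atTop, max 4 (max (2 * Real.log (max 4 (2 * (N + 1)) : ℝ)) 4) ≤
      Real.log y ^ θ :=
    ((tendsto_rpow_atTop h0).comp t1).eventually_ge_atTop _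
  have h2 : ∀ᶠ y : ℕ in atTop, max 2 ((2 : ℝ) ^ A') ≤ Real.log y := t1.eventually_ge_atTop _
  obtain ⟨Y, hY⟩ := eventually_atTop.1 (h1.and h2)
  refine ⟨max Y 3, le_max_right _ _, fun y hy => ?_⟩
  obtain ⟨a1, a2⟩ := hY y (le_trans (le_max_left _ _) hy)
  have hy3 : 3 ≤ y := le_trans (le_max_right _ _) hy
  have hyr : (0 : ℝ) < y := by
    have : 0 < y := by omega
    exact_mod_cast this
  set L := Real.log y with hL
  set T := L ^ θ with hT
  have hL2 : 2 ≤ L := le_trans (le_max_left _ _) a2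
  have hLA : (2 : ℝ) ^ A' ≤ L := le_trans (le_max_right _ _) a2
  have hT4 : 4 ≤ T := le_trans (le_max_left _ _) a1
  have hTN : 2 * Real.log (max 4 (2 * (N + 1)) : ℝ) ≤ T :=
    le_trans (le_trans (le_max_left _ _) (le_max_right _ _)) a1
  have hL0 : 0 < L := by linarith
  have hm0 : (0 : ℝ) < (max 4 (2 * (N + 1)) : ℝ) :=
    lt_of_lt_of_le (by norm_num : (0 : ℝ) < 4) (le_max_left _ _)
  have hexp2 : (max 4 (2 * (N + 1)) : ℝ) ≤ Real.exp (T / 2) := by
    rw [← Real.log_le_iff_le_exp hm0]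
    linarith
  have e4 : (4 : ℝ) ≤ Real.exp (T / 2) := le_trans (le_max_left _ _) hexp2
  have eN : (2 * (N + 1) : ℝ) ≤ Real.exp (T / 2) := le_trans (le_max_right _ _) hexp2
  have hsq : Real.exp T = Real.exp (T / 2) * Real.exp (T / 2) := by
    rw [← Real.exp_add]
    congr 1
    ring
  set y1 := ⌊Real.exp T⌋₊ with hy1
  have hfl : Real.exp T - 1 < (y1 : ℝ) := Nat.sub_one_lt_floor _
  have hfl' : (y1 : ℝ) ≤ Real.exp T := Nat.floor_le (Real.exp_pos _).le
  have hge : Real.exp (T / 2) ≤ y1 := by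
    rw [hsq] at hfl
    nlinarith
  have hy1pos : (0 : ℝ) < y1 := lt_of_lt_of_le (Real.exp_pos _) hge
  have hlog1 : T / 2 ≤ Real.log y1 := by
    rw [Real.le_log_iff_exp_le hy1pos]
    exact hge
  have hlog2 : Real.log y1 ≤ T := by
    rw [Real.log_le_iff_le_exp hy1pos]
    exact hfl'
  have hTL : T < L := by
    rw [hT]
    calc L ^ θ < L ^ (1 : ℝ) := Real.rpow_lt_rpow_of_exponent_lt (by linarith) hθ1
      _ = L := Real.rpow_one L
  refine ⟨y1, ?_, ?_, ?_, ?_, ?_⟩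
  · apply max_le
    · have : ((2 : ℕ) : ℝ) ≤ y1 := by push_cast; linarith
      exact_mod_cast this
    · have hN0 : (0 : ℝ) ≤ N := Nat.cast_nonneg N
      have : (N : ℝ) ≤ y1 := by linarith
      exact_mod_cast this
  · have h3 : (y1 : ℝ) < y := by
      refine lt_of_le_of_lt hfl' ?_
      rw [← Real.lt_log_iff_exp_lt hyr]
      exact hTL
    exact_mod_cast h3
  · linarith
  · have h3 : Real.log (Real.log y1) ≤ Real.log T :=
      Real.log_le_log (by linarith) hlog2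
    rw [hT, Real.log_rpow hL0] at h3
    exact h3
  · have h3 : (T / 2) ^ A' ≤ Real.log y1 ^ A' := pow_le_pow_left₀ (by linarith) hlog1 _
    refine le_trans ?_ h3
    have h4 : T ^ A' = L ^ (θ * A') := by
      rw [hT, ← Real.rpow_natCast, ← Real.rpow_mul hL0.le]
    have h5 : L ^ ((A : ℝ) + 1) ≤ L ^ (θ * A') :=
      Real.rpow_le_rpow_of_exponent_le (by linarith) hA
    have h6 : L ^ ((A : ℝ) + 1) = L ^ A * L := by
      rw [Real.rpow_add hL0, Real.rpow_natCast, Real.rpow_one]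
    rw [div_pow, le_div_iff₀ (by positivity), h4]
    refine le_trans ?_ h5
    rw [h6]
    exact mul_le_mul_of_nonneg_left hLA (by positivity)

/-- the main estimate -/
theorem main (A : ℕ) (η : ℝ) (hη : 0 < η) (z : ℕ) (hz : 2 ≤ z) : ∃ C : ℝ, 0 ≤ C ∧
    ∀ y : ℕ, z < y → ∀ (r : ℕ) (κ : Bool), 0 < r → Squarefree r → r.Coprime 2 →
      ¬ (r = 1 ∧ κ = false) → (r : ℝ) ≤ Real.log y ^ A →
      |∑ p ∈ PS z y, fx r κ p / p| ≤ η * Real.log (Real.log y) + C := by
  obtain ⟨C0, hC0, hmer⟩ := Pool.Agent.W655.RK.mertens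
  -- the parameters
  obtain ⟨θ, hθ0, hθ1, hθη⟩ : ∃ θ : ℝ, 0 < θ ∧ θ < 1 ∧ 2 * θ ≤ η :=
    ⟨min (1 / 2) (η / 2), lt_min (by norm_num) (by positivity),
      lt_of_le_of_lt (min_le_left _ _) (by norm_num), by
        have := min_le_right (1 / 2 : ℝ) (η / 2)
        linarith⟩
  obtain ⟨A', hA'⟩ : ∃ A' : ℕ, (A : ℝ) + 1 ≤ θ * A' := by
    obtain ⟨A', h⟩ := exists_nat_ge (((A : ℝ) + 1) / θ)
    refine ⟨A', ?_⟩
    rw [div_le_iff₀ hθ0] at h
    linarith
  obtain ⟨N0, hN0⟩ := theta A' θ hθ0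
  obtain ⟨Y0, hY03, hY0⟩ := ev_range θ hθ0 hθ1 A A' (max z N0) hA'
  have hYll : 0 ≤ Real.log (Real.log Y0) := by
    apply Real.log_nonneg
    rw [Real.le_log_iff_exp_le (by
      have : 0 < Y0 := by omega
      exact_mod_cast this)]
    have h1 := Real.exp_one_lt_d9
    have h2 : (3 : ℝ) ≤ Y0 := by exact_mod_cast hY03
    linarith
  refine ⟨Real.log (Real.log Y0) + C0 + 2 * θ, by positivity, fun y hy r κ hr0 hsq hr2 hne hrA => ?_⟩
  have hy3 : 3 ≤ y := by omega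
  have hylog : 1 ≤ Real.log y := by
    rw [Real.le_log_iff_exp_le (by
      have : 0 < y := by omega
      exact_mod_cast this)]
    have h1 := Real.exp_one_lt_d9
    have h2 : (3 : ℝ) ≤ y := by exact_mod_cast hy3
    linarith
  have hyll : 0 ≤ Real.log (Real.log y) := Real.log_nonneg hylog
  have triv : ∀ w : ℕ, |∑ p ∈ PS z w, fx r κ p / p| ≤ ∑ p ∈ PS z w, (1 : ℝ) / p := by
    intro w
    refine (abs_sum_le_sum_abs _ _).trans (sum_le_sum fun p _ => ?_)
    rw [abs_div, Nat.abs_cast]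
    exact div_le_div_of_nonneg_right (fx_abs r κ p) (Nat.cast_nonneg p)
  rcases Nat.lt_or_ge y Y0 with hlt | hge
  · have h1 := (triv y).trans (hmer z y (by omega))
    have h2 : Real.log (Real.log y) ≤ Real.log (Real.log Y0) := by
      apply Real.log_le_log (by linarith)
      apply Real.log_le_log
      · have : 0 < y := by omega
        exact_mod_cast this
      · exact_mod_cast hlt.le
    have h3 : 0 ≤ η * Real.log (Real.log y) := mul_nonneg hη.le hyll
    linarith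
  · obtain ⟨y1, b1, b2, b3, b4, b5⟩ := hY0 y hge
    have hy12 : 2 ≤ y1 := le_trans (le_max_left _ _) b1
    have hy1z : z ≤ y1 := le_trans (le_trans (le_max_left _ _) (le_max_right _ _)) b1
    have hy1N : N0 ≤ y1 := le_trans (le_trans (le_max_right _ _) (le_max_right _ _)) b1
    have hsplit : ∑ p ∈ PS z y, fx r κ p / p =
        ∑ p ∈ PS z y1, fx r κ p / p + ∑ p ∈ (Ioc y1 y).filter Nat.Prime, fx r κ p / p := by
      unfold PS
      rw [← sum_union]
      · congr 1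
        ext p
        simp only [mem_union, mem_filter, mem_Ioc]
        constructor
        · rintro ⟨⟨q1, q2⟩, q3⟩
          rcases Nat.lt_or_ge y1 p with h | h
          · exact Or.inr ⟨⟨h, q2⟩, q3⟩
          · exact Or.inl ⟨⟨q1, h⟩, q3⟩
        · rintro (⟨⟨q1, q2⟩, q3⟩ | ⟨⟨q1, q2⟩, q3⟩)
          · exact ⟨⟨q1, by omega⟩, q3⟩
          · exact ⟨⟨by omega, q2⟩, q3⟩
      · rw [disjoint_left]
        intro p hp hp'
        rw [mem_filter, mem_Ioc] at hp hp'
        omega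
    have h1 := (triv y1).trans (hmer z y1 hy12)
    have h2 := recip (fx r κ) 0 θ y1 y hy12 b2 (fun n hn _ => by
      rw [zero_mul, sub_zero]
      refine hN0 n (hy1N.trans hn) r κ hr0 hsq hr2 hne ?_
      refine (hrA.trans b5).trans ?_
      have hlogn : Real.log y1 ≤ Real.log n := by
        apply Real.log_le_log
        · have : 0 < y1 := by omega
          exact_mod_cast this
        · exact_mod_cast hn
      exact pow_le_pow_left₀ (by linarith) hlogn _)
    rw [zero_mul, sub_zero] at h2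
    have h3 : ∑ n ∈ Ioc y1 y, gl n ≤ Real.log (Real.log y) := by
      obtain ⟨k, hk⟩ : ∃ k, y = y1 + k := ⟨y - y1, by omega⟩
      have h4 := gl_sum_upper y1 k hy12
      rw [← hk] at h4
      have h5 : 0 ≤ Real.log (Real.log y1) := Real.log_nonneg b3
      linarith
    have h4 : (y1 : ℝ) * gl (y1 + 1) ≤ 1 := by
      unfold gl
      have h5 : 1 ≤ Real.log ((y1 + 1 : ℕ) : ℝ) := by
        have h6 : Real.log y1 ≤ Real.log ((y1 + 1 : ℕ) : ℝ) := by
          apply Real.log_le_log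
          · have : 0 < y1 := by omega
            exact_mod_cast this
          · push_cast
            linarith
        linarith
      have h7 : (0 : ℝ) < ((y1 + 1 : ℕ) : ℝ) := by positivity
      rw [mul_one_div, div_le_one (by positivity)]
      have h8 : (y1 : ℝ) ≤ ((y1 + 1 : ℕ) : ℝ) := by push_cast; linarith
      nlinarith
    have h5 : θ * (∑ n ∈ Ioc y1 y, gl n + 2 * ((y1 : ℝ) * gl (y1 + 1))) ≤
        θ * (Real.log (Real.log y) + 2) :=
      mul_le_mul_of_nonneg_left (by linarith) hθ0.le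
    rw [hsplit]
    refine (abs_add_le _ _).trans ?_
    have h6 : 2 * θ * Real.log (Real.log y) ≤ η * Real.log (Real.log y) :=
      mul_le_mul_of_nonneg_right hθη hyll
    nlinarith

end Pool.Agent.L0h48.TV
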